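import Mathlib

set_option autoImplicit false

open CategoryTheory Polynomial

namespace Pool.Agent.Results.MP_682377_al.WeakTwoZero

/-- `E` is `n`-presented: there is an exact sequence `F_n → F_{n-1} → ⋯ → F_0 → E → 0` with
finitely generated free modules `F_i = R ^ (k i)`. -/
def NPresented (R : Type) [CommRing R] (n : ℕ) (E : Type) [AddCommGroup E] [Module R E] : Prop :=
  ∃ (k : ℕ → ℕ) (ε : (Fin (k 0) → R) →ₗ[R] E)
    (d : ∀ i, (Fin (k (i + 1)) → R) →ₗ[R] (Fin (k i) → R)),
    Function.Surjective ε ∧ (1 ≤ n → LinearMap.range (d 0) = LinearMap.ker ε) ∧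
      ∀ i, i + 2 ≤ n → LinearMap.range (d (i + 1)) = LinearMap.ker (d i)

/-- `R` is a weak `(n,d)`-ring in the sense of Mahdou: every `n`-presented cyclic module has
projective dimension at most `d`. -/
def WeakMahdou (n d : ℕ) (R : Type) [CommRing R] : Prop :=
  ∀ (E : Type) [AddCommGroup E] [Module R E], (∃ x : E, Submodule.span R {x} = ⊤) →
    NPresented R n E → projectiveDimension (ModuleCat.of R E) ≤ d

/-- There is an exact sequence `0 → P_m → ⋯ → P_1 → P_0 → M → 0` with finitely generated projective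
modules `P_i`. -/
def FiniteRes (R : Type) [CommRing R] : ℕ → ∀ (M : Type) [AddCommGroup M] [Module R M], Prop
  | 0, M, _, _ => Module.Finite R M ∧ Module.Projective R M
  | m + 1, M, _, _ => ∃ (P : Type) (_ : AddCommGroup P) (_ : Module R P) (f : P →ₗ[R] M),
      Module.Finite R P ∧ Module.Projective R P ∧ Function.Surjective f ∧
        FiniteRes R m (LinearMap.ker f)

/-- The small finitistic dimension of `R`. -/
noncomputable def fPD (R : Type) [CommRing R] : WithBot ℕ∞ :=
  ⨆ (M : ModuleCat.{0} R) (_ : ∃ m, FiniteRes R m M), projectiveDimension M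

/-! ### Schanuel: the kernel of a cyclic presentation of a `2`-presented module -/

section schanuel

variable {R : Type} [CommRing R] {E : Type} [AddCommGroup E] [Module R E]

theorem ker_finitePresentation {n : ℕ} (hn : 2 ≤ n) (hE : NPresented R n E) (x : E)
    (hx : Submodule.span R {x} = ⊤) :
    Module.FinitePresentation R (LinearMap.ker (LinearMap.toSpanSingleton R E x)) := by
  obtain ⟨k, ε, d, hε, h0, h1⟩ := hE
  have h0 := h0 (by omega)
  have h1 := h1 0 hn
  -- `K = ker ε` is finitely presented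
  have hK : Module.FinitePresentation R (LinearMap.ker ε) := by
    have : Module.FinitePresentation R (LinearMap.range (d 0)) := by
      refine Module.finitePresentation_of_surjective (d 0).rangeRestrict
        (LinearMap.surjective_rangeRestrict _) ?_
      rw [LinearMap.ker_rangeRestrict, ← h1]
      exact Module.Finite.iff_fg.1 (Module.Finite.range _)
    rw [← h0]
    exact this
  have hsurj : Function.Surjective (LinearMap.toSpanSingleton R E x) := by
    rw [← LinearMap.range_eq_top, LinearMap.range_toSpanSingleton, hx]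
  obtain ⟨s, hs⟩ := Module.projective_lifting_property (LinearMap.toSpanSingleton R E x) ε hsurj
  obtain ⟨y, hy⟩ := hε x
  have hs' : ∀ a, s a • x = ε a := fun a => by
    have := LinearMap.congr_fun hs a
    simpa [LinearMap.toSpanSingleton_apply] using this
  let I := LinearMap.ker (LinearMap.toSpanSingleton R E x)
  have hI : ∀ r : R, r ∈ I ↔ r • x = 0 := fun r => by
    simp [I, LinearMap.mem_ker, LinearMap.toSpanSingleton_apply]
  -- the surjection `K × R → I`
  let φ0 : (LinearMap.ker ε × R) →ₗ[R] R :=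
    (s ∘ₗ (LinearMap.ker ε).subtype).coprod
      (LinearMap.id - s ∘ₗ LinearMap.toSpanSingleton R _ y)
  have hφ0 : ∀ (a : LinearMap.ker ε) (r : R), φ0 (a, r) = s a + (r - s (r • y)) := by
    intro a r
    simp [φ0, LinearMap.toSpanSingleton_apply]
  have hmem : ∀ p, φ0 p ∈ I := by
    rintro ⟨a, r⟩
    rw [hI, hφ0, add_smul, sub_smul, hs', hs', map_smul, hy]
    have : ε (a : Fin (k 0) → R) = 0 := a.2
    rw [this]
    simp
  let φ : (LinearMap.ker ε × R) →ₗ[R] I := φ0.codRestrict I hmem
  have hφs : Function.Surjective φ := by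
    rintro ⟨b, hb⟩
    have hb' : b • x = 0 := (hI b).1 hb
    have hk : b • y ∈ LinearMap.ker ε := by
      rw [LinearMap.mem_ker, map_smul, hy, hb']
    refine ⟨(⟨b • y, hk⟩, b), ?_⟩
    apply Subtype.ext
    show φ0 _ = b
    rw [hφ0]
    simp
  -- its kernel is the image of `F_0`
  have hψ0 : ∀ a : Fin (k 0) → R, s a • y - a ∈ LinearMap.ker ε := by
    intro a
    rw [LinearMap.mem_ker, map_sub, map_smul, hy, hs', sub_self]
  let ψ : (Fin (k 0) → R) →ₗ[R] (LinearMap.ker ε × R) :=
    LinearMap.prod (LinearMap.codRestrict (LinearMap.ker ε)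
      (LinearMap.toSpanSingleton R _ y ∘ₗ s - LinearMap.id)
      (fun a => by simpa [LinearMap.toSpanSingleton_apply] using hψ0 a)) s
  have hker : LinearMap.ker φ = LinearMap.range ψ := by
    ext ⟨a, r⟩
    constructor
    · intro h
      have h' : s a + (r - s (r • y)) = 0 := by
        have := congrArg Subtype.val (LinearMap.mem_ker.1 h)
        rw [← hφ0]
        exact this
      refine ⟨r • y - a, ?_⟩
      have hsr : s (r • y - a) = r := by
        rw [map_sub]
        linear_combination -h'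
      refine Prod.ext ?_ hsr
      apply Subtype.ext
      show s (r • y - (a : Fin (k 0) → R)) • y - (r • y - (a : Fin (k 0) → R)) = a
      rw [hsr]
      abel
    · rintro ⟨b, hb⟩
      rw [← hb]
      rw [LinearMap.mem_ker]
      apply Subtype.ext
      show φ0 (ψ b) = 0
      have : ψ b = (⟨s b • y - b, hψ0 b⟩, s b) := rfl
      rw [this, hφ0]
      simp
  refine Module.finitePresentation_of_surjective φ hφs ?_
  rw [hker]
  exact Module.Finite.iff_fg.1 (Module.Finite.range _)

end schanuel

/-! ### The ring -/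

/-- The base domain `ℤ[X]`. -/
abbrev A : Type := Polynomial ℤ

/-- Index set: nonzero elements of `A`, each one repeated infinitely often. -/
abbrev ι : Type := {p : A // p ≠ 0} × ℕ

/-- `E = ⨁_{π ≠ 0} (A / π)^(ℕ)`. -/
def E : Type := Π₀ i : ι, A ⧸ Ideal.span {i.1.1}

noncomputable instance : AddCommGroup E := inferInstanceAs (AddCommGroup (Π₀ i : ι, A ⧸ Ideal.span {i.1.1}))
noncomputable instance : Module A E := inferInstanceAs (Module A (Π₀ i : ι, A ⧸ Ideal.span {i.1.1}))
noncomputable instance : Module Aᵐᵒᵖ E := Module.compHom E ((RingEquiv.toOpposite A).symm.toRingHom)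
instance : IsCentralScalar A E := ⟨fun _ _ => rfl⟩

/-- The idealization `A ⋉ E`. -/
abbrev R : Type := TrivSqZeroExt A E

noncomputable example : CommRing R := inferInstance

open Classical in
/-- The component `(π, n)` of an element of `E`. -/
noncomputable def comp (i : ι) : E →ₗ[A] (A ⧸ Ideal.span {i.1.1}) :=
  DFinsupp.lapply (R := A) (M := fun i : ι => A ⧸ Ideal.span {i.1.1}) i

open Classical in
/-- The inclusion of the summand `(π, n)`. -/
noncomputable def inc (i : ι) : (A ⧸ Ideal.span {i.1.1}) →ₗ[A] E :=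
  DFinsupp.lsingle (R := A) (M := fun i : ι => A ⧸ Ideal.span {i.1.1}) i

theorem comp_inc (i : ι) (x : A ⧸ Ideal.span {i.1.1}) : comp i (inc i x) = x := by
  unfold comp inc
  exact DFinsupp.single_eq_same

theorem ext_comp {e : E} (h : ∀ i, comp i e = 0) : e = 0 := DFinsupp.ext h

theorem mk_eq_zero {p a : A} : (Ideal.Quotient.mk (Ideal.span {p}) a = 0) ↔ p ∣ a := by
  rw [Ideal.Quotient.eq_zero_iff_mem, Ideal.mem_span_singleton]

theorem smul_mk (p a b : A) : a • (Ideal.Quotient.mk (Ideal.span {p}) b) =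
    Ideal.Quotient.mk (Ideal.span {p}) (a * b) := rfl

theorem kill0 (e : Π₀ i : ι, A ⧸ Ideal.span {i.1.1}) : ∃ p : A, p ≠ 0 ∧ p • e = 0 := by
  classical
  refine DFinsupp.induction (p := fun e : (Π₀ i : ι, A ⧸ Ideal.span {i.1.1}) =>
    ∃ p : A, p ≠ 0 ∧ p • e = 0) e ⟨1, one_ne_zero, smul_zero _⟩ ?_
  rintro i b f _ _ ⟨p, hp, hpf⟩
  refine ⟨i.1.1 * p, mul_ne_zero i.1.2 hp, ?_⟩
  obtain ⟨c, rfl⟩ := Ideal.Quotient.mk_surjective b
  have h1 : (i.1.1 * p) • (Ideal.Quotient.mk (Ideal.span {i.1.1}) c) = 0 := by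
    rw [smul_mk, mk_eq_zero, mul_assoc]
    exact dvd_mul_right _ _
  have h2 : (i.1.1 * p) • f = 0 := by
    rw [mul_smul, hpf, smul_zero]
  refine (smul_add (i.1.1 * p) (DFinsupp.single i (Ideal.Quotient.mk (Ideal.span {i.1.1}) c)) f).trans ?_
  rw [h2, add_zero]
  refine (DFinsupp.single_smul (β := fun i : ι => A ⧸ Ideal.span {i.1.1}) (i.1.1 * p)
    (Ideal.Quotient.mk (Ideal.span {i.1.1}) c)).symm.trans ?_
  rw [h1, DFinsupp.single_zero]

/-- Every element of `E` is killed by a nonzero element of `A`. -/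
theorem kill (e : E) : ∃ p : A, p ≠ 0 ∧ p • e = 0 := kill0 e

/-- Finitely many elements of `E` are killed by a common nonzero element. -/
theorem kill_fin {k : ℕ} (e : Fin k → E) : ∃ p : A, p ≠ 0 ∧ ∀ j, p • e j = 0 := by
  choose p hp hpe using fun j => kill (e j)
  refine ⟨∏ j, p j, Finset.prod_ne_zero_iff.2 fun j _ => hp j, fun j => ?_⟩
  rw [← Finset.prod_erase_mul _ _ (Finset.mem_univ j), mul_smul, hpe, smul_zero]

/-- For finitely many elements of `E` and each `π` there is a summand `(π, n)` in which they all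
vanish. -/
theorem avoid (p : {p : A // p ≠ 0}) (S : Finset E) : ∃ n : ℕ, ∀ e ∈ S, comp (p, n) e = 0 := by
  classical
  let T : Finset ι := S.biUnion fun e => DFinsupp.support (show (Π₀ i : ι, A ⧸ Ideal.span {i.1.1}) from e)
  obtain ⟨n, hn⟩ := Infinite.exists_notMem_finset (T.image Prod.snd)
  refine ⟨n, fun e he => ?_⟩
  by_contra h
  apply hn
  rw [Finset.mem_image]
  refine ⟨(p, n), ?_, rfl⟩
  rw [Finset.mem_biUnion]
  exact ⟨e, he, DFinsupp.mem_support_iff.2 h⟩

/-- The syzygies of `x` which vanish in a summand `(p, n)`, up to the fst-components of syzygies. -/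
theorem syz_comp {k : ℕ} (x : Fin k → R) (hfg : (LinearMap.ker (Fintype.linearCombination R x)).FG)
    (p : {p : A // p ≠ 0}) : ∃ n : ℕ, ∀ v ∈ LinearMap.ker (Fintype.linearCombination R x),
      ∃ u ∈ LinearMap.ker (Fintype.linearCombination R x), ∀ j,
        comp (p, n) (v j).snd = Ideal.Quotient.mk (Ideal.span {p.1}) (u j).fst := by
  classical
  obtain ⟨S, hS⟩ := hfg
  obtain ⟨n, hn⟩ := avoid p (S.biUnion fun g => Finset.univ.image fun j => (g j).snd)
  have hn' : ∀ g ∈ S, ∀ j, comp (p, n) (g j).snd = 0 := fun g hg j => hn _ (by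
    rw [Finset.mem_biUnion]
    exact ⟨g, hg, Finset.mem_image.2 ⟨j, Finset.mem_univ _, rfl⟩⟩)
  refine ⟨n, fun v hv => ?_⟩
  rw [← hS] at hv
  induction hv using Submodule.span_induction with
  | mem g hg =>
    exact ⟨0, Submodule.zero_mem _, fun j => by rw [hn' g hg j]; simp⟩
  | zero => exact ⟨0, Submodule.zero_mem _, fun j => by simp⟩
  | add v w _ _ hv hw =>
    obtain ⟨u, hu, hvu⟩ := hv
    obtain ⟨u', hu', hwu⟩ := hw
    refine ⟨u + u', Submodule.add_mem _ hu hu', fun j => ?_⟩
    rw [Pi.add_apply, Pi.add_apply, TrivSqZeroExt.snd_add, TrivSqZeroExt.fst_add, map_add, map_add,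
      hvu j, hwu j]
  | smul c v hvS hv =>
    obtain ⟨u, hu, hvu⟩ := hv
    obtain ⟨H, hH⟩ := Ideal.Quotient.mk_surjective (comp (p, n) c.snd)
    rw [hS] at hvS
    refine ⟨(TrivSqZeroExt.inl c.fst : R) • u + (TrivSqZeroExt.inl H : R) • v,
      Submodule.add_mem _ (Submodule.smul_mem _ _ hu) (Submodule.smul_mem _ _ hvS), fun j => ?_⟩
    rw [Pi.smul_apply, Pi.add_apply, Pi.smul_apply, Pi.smul_apply, smul_eq_mul, smul_eq_mul,
      smul_eq_mul, TrivSqZeroExt.snd_mul, op_smul_eq_smul, map_add, map_smul, map_smul, hvu j, ← hH,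
      TrivSqZeroExt.fst_add, TrivSqZeroExt.fst_mul, TrivSqZeroExt.fst_mul,
      TrivSqZeroExt.fst_inl, TrivSqZeroExt.fst_inl, smul_mk, smul_mk, map_add, mul_comm (v j).fst]

theorem mem_ker_iff {k : ℕ} (x u : Fin k → R) :
    u ∈ LinearMap.ker (Fintype.linearCombination R x) ↔
      (∑ j, (u j).fst * (x j).fst = 0 ∧
        ∑ j, ((u j).fst • (x j).snd + (x j).fst • (u j).snd) = 0) := by
  rw [LinearMap.mem_ker, Fintype.linearCombination_apply, TrivSqZeroExt.ext_iff,
    TrivSqZeroExt.fst_sum, TrivSqZeroExt.snd_sum]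
  simp only [smul_eq_mul, TrivSqZeroExt.fst_mul, TrivSqZeroExt.snd_mul, op_smul_eq_smul,
    TrivSqZeroExt.fst_zero, TrivSqZeroExt.snd_zero]

/-- Every finitely presented ideal of `R` is `0` or `R`. -/
theorem ideal_trivial (I : Ideal R) (hI : Module.FinitePresentation R I) : I = ⊥ ∨ I = ⊤ := by
  classical
  obtain ⟨k, x, hx⟩ : ∃ k, ∃ x : Fin k → R, Submodule.span R (Set.range x) = I :=
    Submodule.fg_iff_exists_fin_generating_family.1
      (Module.Finite.iff_fg.1 (inferInstance : Module.Finite R I))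
  set l0 := Fintype.linearCombination R x with hl0
  have hrange : LinearMap.range l0 = I := by
    rw [hl0, Fintype.range_linearCombination, hx]
  have hker : (LinearMap.ker l0).FG := by
    have hmem : ∀ v, l0 v ∈ I := fun v => hrange ▸ LinearMap.mem_range_self l0 v
    have h2 := Module.FinitePresentation.fg_ker (l0.codRestrict I hmem) (by
      rintro ⟨b, hb⟩
      rw [← hrange] at hb
      obtain ⟨v, hv⟩ := hb
      exact ⟨v, Subtype.ext hv⟩)
    rwa [LinearMap.ker_codRestrict] at h2
  have hxI : ∀ j, x j ∈ I := fun j => hx ▸ Submodule.subset_span ⟨j, rfl⟩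
  let J : Ideal A := Ideal.span (Set.range fun j => (x j).fst)
  by_cases hJ0 : J = ⊥
  · -- all `f_j = 0`
    left
    have hf : ∀ j, (x j).fst = 0 := fun j => by
      have : (x j).fst ∈ J := Ideal.subset_span ⟨j, rfl⟩
      rwa [hJ0, Ideal.mem_bot] at this
    obtain ⟨p, hp, hpe⟩ := kill_fin fun j => (x j).snd
    obtain ⟨n, hn⟩ := syz_comp x hker ⟨p, hp⟩
    have he : ∀ j, (x j).snd = 0 := by
      intro j0
      let v : Fin k → R := fun j => TrivSqZeroExt.inr (inc (⟨p, hp⟩, n)
        (Ideal.Quotient.mk (Ideal.span {p}) (if j = j0 then 1 else 0)))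
      have hv : v ∈ LinearMap.ker l0 := by
        rw [hl0, mem_ker_iff]
        constructor
        · exact Finset.sum_eq_zero fun j _ => by simp [v]
        · exact Finset.sum_eq_zero fun j _ => by simp [v, hf j]
      obtain ⟨u, hu, huv⟩ := hn v hv
      rw [← hl0, hl0, mem_ker_iff] at hu
      have h1 : ∀ j, ∃ h : A, (if j = j0 then 1 else 0) = (u j).fst + p * h := by
        intro j
        have := huv j
        simp only [v, TrivSqZeroExt.snd_inr] at this
        rw [comp_inc, ← sub_eq_zero, ← map_sub, mk_eq_zero] at this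
        obtain ⟨h, hh⟩ := this
        exact ⟨h, by rw [← hh]; ring⟩
      choose h hh using h1
      have h2 : ∑ j, (u j).fst • (x j).snd = 0 := by
        have := hu.2
        simpa [hf] using this
      have h3 : ∑ j, (if j = j0 then (1:A) else 0) • (x j).snd = (x j0).snd := by
        rw [Finset.sum_eq_single j0]
        · simp
        · intro b _ hb
          simp [hb]
        · simp
      rw [← h3]
      calc ∑ j, (if j = j0 then (1:A) else 0) • (x j).snd
          = ∑ j, ((u j).fst • (x j).snd + h j • (p • (x j).snd)) :=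
            Finset.sum_congr rfl fun j _ => by rw [hh j, add_smul, smul_smul, mul_comm p]
        _ = 0 := by simp [h2, hpe]
    rw [← hx, Submodule.span_eq_bot]
    rintro _ ⟨j, rfl⟩
    exact TrivSqZeroExt.ext (hf j) (he j)
  · right
    by_cases hJ1 : J = ⊤
    · have h1 : (1 : A) ∈ J := hJ1 ▸ Submodule.mem_top
      rw [Ideal.mem_span_range_iff_exists_fun] at h1
      obtain ⟨c, hc⟩ := h1
      have h2 : ∑ j, (TrivSqZeroExt.inl (c j) : R) * x j ∈ I :=
        Ideal.sum_mem _ fun j _ => I.mul_mem_left _ (hxI j)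
      refine Ideal.eq_top_of_isUnit_mem _ h2 ?_
      rw [TrivSqZeroExt.isUnit_iff_isUnit_fst, TrivSqZeroExt.fst_sum]
      simp only [TrivSqZeroExt.fst_mul, TrivSqZeroExt.fst_inl, hc]
      exact isUnit_one
    · exfalso
      apply hJ1
      obtain ⟨p, hpJ, hp⟩ := Submodule.exists_mem_ne_zero_of_ne_bot hJ0
      have hpJ' := hpJ
      rw [Ideal.mem_span_range_iff_exists_fun] at hpJ'
      obtain ⟨c, hc⟩ := hpJ'
      obtain ⟨n, hn⟩ := syz_comp x hker ⟨p, hp⟩
      let v : Fin k → R := fun j => TrivSqZeroExt.inr (inc (⟨p, hp⟩, n)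
        (Ideal.Quotient.mk (Ideal.span {p}) (c j)))
      have hv : v ∈ LinearMap.ker l0 := by
        rw [hl0, mem_ker_iff]
        constructor
        · exact Finset.sum_eq_zero fun j _ => by simp [v]
        · simp only [v, TrivSqZeroExt.fst_inr, TrivSqZeroExt.snd_inr, zero_smul, zero_add]
          simp only [← map_smul, ← map_sum, smul_mk]
          have : ∑ j, (x j).fst * c j = p := by
            rw [← hc]
            exact Finset.sum_congr rfl fun j _ => mul_comm _ _
          rw [this, mk_eq_zero.2 dvd_rfl, map_zero]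
      obtain ⟨u, hu, huv⟩ := hn v hv
      rw [← hl0, hl0, mem_ker_iff] at hu
      have h1 : ∀ j, ∃ h : A, c j = (u j).fst + p * h := by
        intro j
        have := huv j
        simp only [v, TrivSqZeroExt.snd_inr] at this
        rw [comp_inc, ← sub_eq_zero, ← map_sub, mk_eq_zero] at this
        obtain ⟨h, hh⟩ := this
        exact ⟨h, by rw [← hh]; ring⟩
      choose h hh using h1
      have h2 : p * ∑ j, h j * (x j).fst = p * 1 := by
        rw [mul_one]
        conv_rhs => rw [← hc]
        rw [Finset.mul_sum, ← sub_eq_zero, ← Finset.sum_sub_distrib, ← neg_eq_zero,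
          ← Finset.sum_neg_distrib, ← hu.1]
        exact Finset.sum_congr rfl fun j _ => by rw [hh j]; ring
      have h3 := mul_left_cancel₀ hp h2
      rw [Ideal.eq_top_iff_one, ← h3]
      exact Ideal.sum_mem _ fun j _ => J.mul_mem_left _ (Ideal.subset_span ⟨j, rfl⟩)

/-- Every `n`-presented (`n ≥ 2`) cyclic `R`-module is projective (in fact it is `0` or `R`). -/
theorem cyclic_projective {n : ℕ} (hn : 2 ≤ n) (M : Type) [AddCommGroup M] [Module R M]
    (hM : ∃ x : M, Submodule.span R {x} = ⊤) (hp : NPresented R n M) : Module.Projective R M := by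
  obtain ⟨x, hx⟩ := hM
  have h := ker_finitePresentation hn hp x hx
  have hsurj : Function.Surjective (LinearMap.toSpanSingleton R M x) := by
    rw [← LinearMap.range_eq_top, LinearMap.range_toSpanSingleton, hx]
  rcases ideal_trivial (LinearMap.ker (LinearMap.toSpanSingleton R M x)) h with h | h
  · exact Module.Projective.of_equiv (LinearEquiv.ofBijective (LinearMap.toSpanSingleton R M x)
      ⟨LinearMap.ker_eq_bot.1 h, hsurj⟩)
  · have h1 : (1 : R) ∈ LinearMap.ker (LinearMap.toSpanSingleton R M x) := by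
      rw [h]; exact Submodule.mem_top
    have hx0 : x = 0 := by
      simpa [LinearMap.mem_ker, LinearMap.toSpanSingleton_apply] using h1
    have : Subsingleton M := by
      refine ⟨fun a b => ?_⟩
      obtain ⟨r, rfl⟩ := hsurj a
      obtain ⟨s, rfl⟩ := hsurj b
      simp [hx0]
    infer_instance

theorem weakMahdou {n : ℕ} (hn : 2 ≤ n) (d : ℕ) : WeakMahdou n d R := by
  intro M _ _ hM hp
  have h : Module.Projective R M := cyclic_projective hn M hM hp
  have h2 : Projective (ModuleCat.of R M) := (IsProjective.iff_projective (R := R) M).1 h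
  rw [projective_iff_hasProjectiveDimensionLE_zero, ← projectiveDimension_le_iff] at h2
  exact h2.trans (by exact_mod_cast Nat.zero_le d)

/-! ### A module of projective dimension one -/

/-- `E` has no nonzero element killed by `2` and `X`. -/
theorem no_torsion {e : E} (h2 : (2 : A) • e = 0) (hX : (X : A) • e = 0) : e = 0 := by
  refine ext_comp fun i => ?_
  obtain ⟨c, hc⟩ := Ideal.Quotient.mk_surjective (comp i e)
  rw [← hc, mk_eq_zero]
  have h2' : i.1.1 ∣ 2 * c := by
    rw [← mk_eq_zero, ← smul_mk, hc, ← map_smul, h2, map_zero]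
  have hX' : i.1.1 ∣ X * c := by
    rw [← mk_eq_zero, ← smul_mk, hc, ← map_smul, hX, map_zero]
  obtain ⟨u, hu⟩ := h2'
  obtain ⟨v, hv⟩ := hX'
  have h3 : i.1.1 * (u * X) = i.1.1 * (2 * v) := by
    linear_combination (-X) * hu + 2 * hv
  have h4 : u * X = 2 * v := mul_left_cancel₀ i.1.2 h3
  have h5 : (X : A) ∣ 2 * v := ⟨u, by rw [← h4, mul_comm]⟩
  have hprime : Prime (X : A) := Polynomial.prime_X
  have h6 : (X : A) ∣ v := by
    rcases hprime.dvd_or_dvd h5 with h | h
    · exfalso
      rw [Polynomial.X_dvd_iff] at h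
      simp at h
    · exact h
  obtain ⟨w, hw⟩ := h6
  refine ⟨w, ?_⟩
  have h7 : (X : A) * c = X * (i.1.1 * w) := by rw [hv, hw]; ring
  exact mul_left_cancel₀ Polynomial.X_ne_zero h7

/-- The map `R → R^2`, `r ↦ (2 r, X r)`. -/
noncomputable def f0 : R →ₗ[R] (Fin 2 → R) :=
  LinearMap.toSpanSingleton R (Fin 2 → R) ![TrivSqZeroExt.inl 2, TrivSqZeroExt.inl X]

theorem f0_apply (r : R) : f0 r = ![r * TrivSqZeroExt.inl 2, r * TrivSqZeroExt.inl X] := by
  funext j
  fin_cases j <;> simp [f0, LinearMap.toSpanSingleton_apply]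

theorem f0_injective : Function.Injective f0 := by
  rw [← LinearMap.ker_eq_bot, LinearMap.ker_eq_bot']
  intro r hr
  rw [f0_apply] at hr
  have h0 : r * TrivSqZeroExt.inl 2 = 0 := congrFun hr 0
  have h1 : r * TrivSqZeroExt.inl X = 0 := congrFun hr 1
  rw [TrivSqZeroExt.ext_iff] at h0 h1
  simp only [TrivSqZeroExt.fst_mul, TrivSqZeroExt.fst_inl, TrivSqZeroExt.fst_zero,
    TrivSqZeroExt.snd_mul, TrivSqZeroExt.snd_inl, smul_zero, zero_add, op_smul_eq_smul,
    TrivSqZeroExt.snd_zero] at h0 h1
  refine TrivSqZeroExt.ext ?_ (no_torsion h0.2 h1.2)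
  have := h0.1
  rcases mul_eq_zero.1 this with h | h
  · exact h
  · exact absurd h (by norm_num)

/-- The cokernel of `f0`. -/
abbrev M0 : Type := (Fin 2 → R) ⧸ LinearMap.range f0

theorem finiteRes_M0 : FiniteRes R 1 M0 := by
  refine ⟨Fin 2 → R, inferInstance, inferInstance, (LinearMap.range f0).mkQ, inferInstance,
    inferInstance, Submodule.mkQ_surjective _, ?_⟩
  have e : R ≃ₗ[R] LinearMap.ker (LinearMap.range f0).mkQ :=
    (LinearEquiv.ofInjective f0 f0_injective).trans
      (LinearEquiv.ofEq _ _ (Submodule.ker_mkQ _).symm)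
  exact ⟨Module.Finite.equiv e, Module.Projective.of_equiv e⟩

theorem not_projective_M0 : ¬ Module.Projective R M0 := by
  intro h
  obtain ⟨σ, hσ⟩ := Module.projective_lifting_property (LinearMap.range f0).mkQ LinearMap.id
    (Submodule.mkQ_surjective _)
  have hσ' : ∀ m, (LinearMap.range f0).mkQ (σ m) = m := fun m => LinearMap.congr_fun hσ m
  let τ : (Fin 2 → R) →ₗ[R] (Fin 2 → R) := LinearMap.id - σ ∘ₗ (LinearMap.range f0).mkQ
  have hτ : ∀ z, τ z ∈ LinearMap.range f0 := by
    intro z
    rw [← Submodule.ker_mkQ (LinearMap.range f0), LinearMap.mem_ker]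
    show (LinearMap.range f0).mkQ (z - σ ((LinearMap.range f0).mkQ z)) = 0
    rw [map_sub, hσ', sub_self]
  let ρ : (Fin 2 → R) →ₗ[R] R :=
    (LinearEquiv.ofInjective f0 f0_injective).symm.toLinearMap ∘ₗ τ.codRestrict _ hτ
  have hρ : ρ (f0 1) = 1 := by
    show (LinearEquiv.ofInjective f0 f0_injective).symm _ = 1
    rw [LinearEquiv.symm_apply_eq]
    apply Subtype.ext
    show f0 1 - σ ((LinearMap.range f0).mkQ (f0 1)) = f0 1
    have : (LinearMap.range f0).mkQ (f0 1) = 0 := by
      rw [← LinearMap.mem_ker, Submodule.ker_mkQ]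
      exact LinearMap.mem_range_self _ _
    rw [this, map_zero, sub_zero]
  have h1 : f0 1 = (TrivSqZeroExt.inl 2 : R) • (Pi.single 0 1 : Fin 2 → R) +
      (TrivSqZeroExt.inl X : R) • (Pi.single 1 1 : Fin 2 → R) := by
    rw [f0_apply]
    funext j
    fin_cases j <;> simp
  rw [h1, map_add, map_smul, map_smul, smul_eq_mul, smul_eq_mul] at hρ
  have h2 := congrArg TrivSqZeroExt.fst hρ
  rw [TrivSqZeroExt.fst_add, TrivSqZeroExt.fst_mul, TrivSqZeroExt.fst_mul, TrivSqZeroExt.fst_inl,
    TrivSqZeroExt.fst_inl, TrivSqZeroExt.fst_one] at h2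
  have h3 := congrArg (Polynomial.eval 0) h2
  rw [Polynomial.eval_add, Polynomial.eval_mul, Polynomial.eval_mul, Polynomial.eval_X,
    Polynomial.eval_one, zero_mul, add_zero] at h3
  have h4 : Polynomial.eval 0 (2 : A) = (2 : ℤ) := by simp
  rw [h4] at h3
  omega

theorem fPD_pos : ¬ fPD R ≤ 0 := by
  intro h
  have h1 : projectiveDimension (ModuleCat.of R M0) ≤ fPD R :=
    le_iSup₂_of_le (f := fun (M : ModuleCat.{0} R) (_ : ∃ m, FiniteRes R m M) =>
      projectiveDimension M) (ModuleCat.of R M0) ⟨1, finiteRes_M0⟩ le_rfl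
  have h2 : projectiveDimension (ModuleCat.of R M0) ≤ ((0 : ℕ) : WithBot ℕ∞) := h1.trans h
  rw [projectiveDimension_le_iff, ← projective_iff_hasProjectiveDimensionLE_zero,
    ← IsProjective.iff_projective] at h2
  exact not_projective_M0 h2

/-- There is a commutative ring `R` all of whose `n`-presented cyclic modules (`n ≥ 2`) are
projective, so that `R` is a weak `(n,d)`-ring in the sense of Mahdou for all `n ≥ 2` and `d ≥ 0`,
and whose small finitistic dimension is positive. In particular it is not true that every weak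
`(n,d)`-ring `R` in the sense of Mahdou satisfies `fPD(R) ≤ d`. -/
theorem result :
    (∃ (R : Type) (_ : CommRing R), (∀ n d, 2 ≤ n → WeakMahdou n d R) ∧ ¬ fPD R ≤ 0) ∧
      ¬ ∀ (n d : ℕ) (R : Type) [CommRing R], WeakMahdou n d R → fPD R ≤ d := by
  refine ⟨⟨R, inferInstance, fun n d hn => weakMahdou hn d, fPD_pos⟩, fun h => ?_⟩
  exact fPD_pos (by exact_mod_cast h 2 0 R (weakMahdou le_rfl 0))

end Pool.Agent.Results.MP_682377_al.WeakTwoZero
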